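import Pool.Agent.Run7.h33.GerstenRep

/-!
# The faithful representation of the free-by-cyclic group
-/

namespace Run7.h33.Gersten

open Matrix Polynomial

/-! ### Homs out of `Multiplicative ℤ` -/

theorem compat_of_one {N G : Type*} [Group N] [Group G] (ψ : Multiplicative ℤ →* MulAut N)
    (f : N →* G) (g : Multiplicative ℤ →* G)
    (h : ∀ n, f (ψ (Multiplicative.ofAdd 1) n) =
      g (Multiplicative.ofAdd 1) * f n * (g (Multiplicative.ofAdd 1))⁻¹) :
    ∀ (k : Multiplicative ℤ) (n : N), f (ψ k n) = g k * f n * (g k)⁻¹ := by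
  intro k
  obtain ⟨z, rfl⟩ : ∃ z : ℤ, Multiplicative.ofAdd z = k := ⟨k.toAdd, rfl⟩
  induction z using Int.induction_on with
  | zero => intro n; simp
  | succ i ih =>
    intro n
    rw [ofAdd_add, map_mul, map_mul, MulAut.mul_apply, ih, h]
    group
  | pred i ih =>
    intro n
    rw [sub_eq_add_neg, ofAdd_add, map_mul, map_mul, MulAut.mul_apply, ih]
    have h' := h (ψ (Multiplicative.ofAdd (-1)) n)
    rw [← MulAut.mul_apply, ← map_mul, ← ofAdd_add] at h'
    simp only [add_neg_cancel, ofAdd_zero, map_one, MulAut.one_apply] at h'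
    have h2 : g (Multiplicative.ofAdd (-1)) = (g (Multiplicative.ofAdd 1))⁻¹ := by
      rw [← map_inv, ofAdd_neg]
    rw [h2, h']
    group

/-! ### Specialisation of polynomials -/

section Spec

variable {ι : Type*} [Fintype ι] [DecidableEq ι] {K : Type*} [Field K] [Algebra ℚ K]

/-- specialisation of the variable at `t`, as an algebra map on matrix polynomials -/
noncomputable def spec (t : K) : (Matrix ι ι ℚ)[X] →ₐ[ℚ] Matrix ι ι K :=
  ((aeval t : ℚ[X] →ₐ[ℚ] K).mapMatrix).comp (matPolyEquiv (n := ι) (R := ℚ)).symm.toAlgHom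

theorem spec_injective {t : K} (ht : Transcendental ℚ t) :
    Function.Injective (spec (ι := ι) t) := by
  have h1 : Function.Injective (aeval t : ℚ[X] →ₐ[ℚ] K) :=
    transcendental_iff_injective.1 ht
  unfold spec
  rw [AlgHom.coe_comp]
  refine Function.Injective.comp ?_ (matPolyEquiv (n := ι) (R := ℚ)).symm.injective
  intro M N h
  refine Matrix.ext fun i j => h1 ?_
  exact congrFun (congrFun h i) j

theorem spec_X (t : K) : spec (ι := ι) t X = t • (1 : Matrix ι ι K) := by
  change (aeval t : ℚ[X] →ₐ[ℚ] K).mapMatrix (matPolyEquiv.symm X) = _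
  rw [matPolyEquiv_symm_X, AlgHom.mapMatrix_apply, smul_one_eq_diagonal,
    diagonal_map (map_zero _)]
  simp

end Spec

/-! ### The two homomorphisms -/

section Hom

variable {σ : Type*} [Fintype σ] [DecidableEq σ] {I : Type*}
variable (e : σ → ℚ) (s : I × Bool → σ) (θ : I × Bool → ℚ)
variable {K : Type*} [Field K] [Algebra ℚ K]

/-- the unipotent homomorphism -/
noncomputable def lowHom (σ : Type*) [Fintype σ] [DecidableEq σ] :
    Multiplicative (Matrix σ σ ℚ) →* ((Matrix (σ ⊕ σ) (σ ⊕ σ) ℚ)[X])ˣ where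
  toFun Y := ⟨C (low Y.toAdd), C (low (-Y.toAdd)), C_low_mul_neg _, C_low_neg_mul _⟩
  map_one' := by
    ext1
    simp [low_zero]
  map_mul' Y Z := by
    ext1
    simp [← C_mul, low_mul]

/-- the unipotent homomorphism, specialised -/
noncomputable def LU (σ : Type*) [Fintype σ] [DecidableEq σ] (t : K) :
    Multiplicative (Matrix σ σ ℚ) →* (Matrix (σ ⊕ σ) (σ ⊕ σ) K)ˣ :=
  (Units.map (spec (ι := σ ⊕ σ) t : _ →* _)).comp (lowHom σ)

theorem LU_val (t : K) (Y : Matrix σ σ ℚ) :
    ((LU σ t (Multiplicative.ofAdd Y) : (Matrix (σ ⊕ σ) (σ ⊕ σ) K)ˣ) :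
      Matrix (σ ⊕ σ) (σ ⊕ σ) K) = spec t (C (low Y)) := rfl

/-- the image of a stable letter -/
noncomputable def letterU (he : Function.Injective e) {t : K} (ht : t ≠ 0) (l : I × Bool) :
    (Matrix (σ ⊕ σ) (σ ⊕ σ) K)ˣ where
  val := t⁻¹ • spec t (pol e s θ l)
  inv := t⁻¹ • spec t (pol e s θ (opp l))
  val_inv := by
    rw [smul_mul_smul_comm, ← map_mul, pol_mul_opp e s θ he, map_pow, spec_X, _root_.smul_pow, one_pow,
      smul_smul]
    rw [← sq, inv_pow, inv_mul_cancel₀ (pow_ne_zero 2 ht), one_smul]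
  inv_val := by
    have h := pol_mul_opp e s θ he (opp l)
    rw [opp_opp] at h
    rw [smul_mul_smul_comm, ← map_mul, h, map_pow, spec_X, _root_.smul_pow, one_pow,
      smul_smul]
    rw [← sq, inv_pow, inv_mul_cancel₀ (pow_ne_zero 2 ht), one_smul]

theorem letterU_opp (he : Function.Injective e) {t : K} (ht : t ≠ 0) (l : I × Bool) :
    letterU e s θ he ht (opp l) = (letterU e s θ he ht l)⁻¹ := by
  ext1
  rfl

/-- the homomorphism on the free group -/
noncomputable def freeHom (he : Function.Injective e) {t : K} (ht : t ≠ 0) :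
    FreeGroup (Option I) →* (Matrix (σ ⊕ σ) (σ ⊕ σ) K)ˣ :=
  FreeGroup.lift fun x => match x with
    | none => LU σ t (Multiplicative.ofAdd 1)
    | some i => letterU e s θ he ht (i, true)

/-- the homomorphism on the cyclic group -/
noncomputable def cycHom (t : K) : Multiplicative ℤ →* (Matrix (σ ⊕ σ) (σ ⊕ σ) K)ˣ :=
  zpowersHom _ (LU σ t (Multiplicative.ofAdd (dg e 0)))

theorem freeHom_none (he : Function.Injective e) {t : K} (ht : t ≠ 0) :
    freeHom e s θ he ht (FreeGroup.of none) = LU σ t (Multiplicative.ofAdd 1) := by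
  simp [freeHom]

theorem freeHom_some (he : Function.Injective e) {t : K} (ht : t ≠ 0) (i : I) :
    freeHom e s θ he ht (FreeGroup.of (some i)) = letterU e s θ he ht (i, true) := by
  simp [freeHom]

theorem cycHom_apply (t : K) (k : ℤ) : cycHom e t (Multiplicative.ofAdd k) =
    LU σ t (Multiplicative.ofAdd ((k : ℚ) • dg e 0)) := by
  rw [cycHom, zpowersHom_apply, toAdd_ofAdd, ← map_zpow, ← ofAdd_zsmul, ← Int.cast_smul_eq_zsmul ℚ]

/-- value of a word -/
theorem freeHom_mk (he : Function.Injective e) {t : K} (ht : t ≠ 0)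
    (L : List (Option I × Bool)) :
    t ^ ((L.map wt).sum) • ((freeHom e s θ he ht (FreeGroup.mk L) :
      (Matrix (σ ⊕ σ) (σ ⊕ σ) K)ˣ) : Matrix (σ ⊕ σ) (σ ⊕ σ) K) =
      spec t ((L.map (ev e s θ)).prod) := by
  induction L with
  | nil => simp [freeHom]
  | cons x L ih =>
    have h1 : (FreeGroup.mk (x :: L) : FreeGroup (Option I)) = FreeGroup.mk [x] * FreeGroup.mk L := by
      rw [FreeGroup.mul_mk]; rfl
    rw [h1, map_mul, Units.val_mul, List.map_cons, List.map_cons, List.sum_cons, List.prod_cons,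
      map_mul, ← ih, pow_add, ← smul_mul_smul_comm]
    congr 1
    rcases x with ⟨_ | i, b⟩
    · cases b
      · have h2 : (FreeGroup.mk [(none, false)] : FreeGroup (Option I)) =
            (FreeGroup.of none)⁻¹ := rfl
        rw [h2, map_inv, freeHom_none, ← map_inv, ← ofAdd_neg, LU_val]
        simp [wt, ev]
      · have h2 : (FreeGroup.mk [(none, true)] : FreeGroup (Option I)) =
            (FreeGroup.of none) := rfl
        rw [h2, freeHom_none, LU_val]
        simp [wt, ev]
    · cases b
      · have h2 : (FreeGroup.mk [(some i, false)] : FreeGroup (Option I)) =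
            (FreeGroup.of (some i))⁻¹ := rfl
        rw [h2, map_inv, freeHom_some, ← letterU_opp]
        simp only [wt, ev, pow_one, letterU, opp, Bool.not_true]
        rw [smul_smul, mul_inv_cancel₀ ht, one_smul]
      · have h2 : (FreeGroup.mk [(some i, true)] : FreeGroup (Option I)) =
            (FreeGroup.of (some i)) := rfl
        rw [h2, freeHom_some]
        simp only [wt, ev, pow_one, letterU]
        rw [smul_smul, mul_inv_cancel₀ ht, one_smul]

theorem LU_commute (t : K) (Y Z : Multiplicative (Matrix σ σ ℚ)) :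
    Commute (LU σ t Y) (LU σ t Z) := by
  rw [commute_iff_eq, ← map_mul, ← map_mul, mul_comm]

theorem LU_mul_letterU (he : Function.Injective e) {t : K} (ht : t ≠ 0) (l : I × Bool) :
    LU σ t (Multiplicative.ofAdd (dg e (e (s l)))) * letterU e s θ he ht l =
      letterU e s θ he ht l * LU σ t (Multiplicative.ofAdd (dg e (e (s (opp l))))) := by
  ext1
  simp only [Units.val_mul, LU_val, letterU, mul_smul_comm, smul_mul_assoc]
  rw [← map_mul, ← map_mul, C_low_mul_pol e s θ he]

theorem LU_dg (t : K) (z : ℤ) : LU σ t (Multiplicative.ofAdd (dg e (z : ℚ))) =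
    LU σ t (Multiplicative.ofAdd 1) ^ z * LU σ t (Multiplicative.ofAdd (dg e 0)) := by
  rw [← map_zpow, ← map_mul, ← ofAdd_zsmul, ← ofAdd_add, ← Int.cast_smul_eq_zsmul ℚ]
  congr 2
  ext i j
  by_cases h : i = j
  · subst h; simp [dg]; ring
  · simp [dg, h]

variable {e s}

/-- the defining relation -/
theorem relation (he : Function.Injective e) {t : K} (ht : t ≠ 0) {p q : I → ℤ}
    (hp : ∀ i, e (s (i, true)) = -(p i)) (hq : ∀ i, e (s (i, false)) = q i) (i : I) :
    LU σ t (Multiplicative.ofAdd 1) ^ (p i) * letterU e s θ he ht (i, true) *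
      LU σ t (Multiplicative.ofAdd 1) ^ (q i) =
    LU σ t (Multiplicative.ofAdd (dg e 0)) * letterU e s θ he ht (i, true) *
      (LU σ t (Multiplicative.ofAdd (dg e 0)))⁻¹ := by
  have h := LU_mul_letterU e s θ he ht (i, true)
  have h1 : e (s (opp (i, true))) = q i := hq i
  rw [hp i, h1] at h
  have h2 : (-(p i : ℚ)) = ((-(p i) : ℤ) : ℚ) := by push_cast; ring
  rw [h2, LU_dg, LU_dg] at h
  set a := LU σ t (Multiplicative.ofAdd (1 : Matrix σ σ ℚ))
  set τ := LU σ t (Multiplicative.ofAdd (dg e 0))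
  set β := letterU e s θ he ht (i, true)
  have h3 : τ * β = a ^ (p i) * β * a ^ (q i) * τ := by
    calc τ * β = a ^ (p i) * (a ^ (-(p i)) * τ * β) := by group
      _ = a ^ (p i) * (β * (a ^ (q i) * τ)) := by rw [h]
      _ = _ := by group
  rw [h3]
  group

theorem compat (he : Function.Injective e) {t : K} (ht : t ≠ 0) {p q : I → ℤ}
    (hp : ∀ i, e (s (i, true)) = -(p i)) (hq : ∀ i, e (s (i, false)) = q i)
    (ψ : Multiplicative ℤ →* MulAut (FreeGroup (Option I)))
    (h0 : ψ (Multiplicative.ofAdd 1) (FreeGroup.of none) = FreeGroup.of none)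
    (h1 : ∀ i, ψ (Multiplicative.ofAdd 1) (FreeGroup.of (some i)) =
      FreeGroup.of none ^ (p i) * FreeGroup.of (some i) * FreeGroup.of none ^ (q i)) :
    ∀ k n, freeHom e s θ he ht (ψ k n) = cycHom e t k * freeHom e s θ he ht n *
      (cycHom e t k)⁻¹ := by
  apply compat_of_one
  have key : (freeHom e s θ he ht).comp (ψ (Multiplicative.ofAdd 1)).toMonoidHom =
      (MulAut.conj (cycHom e t (Multiplicative.ofAdd 1))).toMonoidHom.comp
        (freeHom e s θ he ht) := by
    apply FreeGroup.ext_hom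
    intro x
    have hc : cycHom e t (Multiplicative.ofAdd 1) = LU σ t (Multiplicative.ofAdd (dg e 0)) := by
      rw [cycHom_apply]; simp
    simp only [MonoidHom.comp_apply, MulEquiv.coe_toMonoidHom, MulAut.conj_apply, hc]
    rcases x with _ | i
    · rw [h0, freeHom_none, (LU_commute t _ _).eq]
      group
    · rw [h1, map_mul, map_mul, map_zpow, map_zpow, freeHom_none, freeHom_some]
      exact relation θ he ht hp hq i
  intro n
  exact DFunLike.congr_fun key n

/-- the homomorphism on the semidirect product -/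
noncomputable def mainHom (he : Function.Injective e) {t : K} (ht : t ≠ 0) {p q : I → ℤ}
    (hp : ∀ i, e (s (i, true)) = -(p i)) (hq : ∀ i, e (s (i, false)) = q i)
    (ψ : Multiplicative ℤ →* MulAut (FreeGroup (Option I)))
    (h0 : ψ (Multiplicative.ofAdd 1) (FreeGroup.of none) = FreeGroup.of none)
    (h1 : ∀ i, ψ (Multiplicative.ofAdd 1) (FreeGroup.of (some i)) =
      FreeGroup.of none ^ (p i) * FreeGroup.of (some i) * FreeGroup.of none ^ (q i)) :
    FreeGroup (Option I) ⋊[ψ] Multiplicative ℤ →* (Matrix (σ ⊕ σ) (σ ⊕ σ) K)ˣ :=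
  SemidirectProduct.lift (freeHom e s θ he ht) (cycHom e t) (by
    intro g
    ext1 x
    simp only [MonoidHom.comp_apply, MulEquiv.coe_toMonoidHom, MulAut.conj_apply]
    exact compat θ he ht hp hq ψ h0 h1 g _)

theorem mainHom_injective [Nontrivial σ] (he : Function.Injective e) {t : K}
    (ht : Transcendental ℚ t) (ht0 : t ≠ 0) {p q : I → ℤ}
    (hp : ∀ i, e (s (i, true)) = -(p i)) (hq : ∀ i, e (s (i, false)) = q i)
    (ψ : Multiplicative ℤ →* MulAut (FreeGroup (Option I)))
    (h0 : ψ (Multiplicative.ofAdd 1) (FreeGroup.of none) = FreeGroup.of none)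
    (h1 : ∀ i, ψ (Multiplicative.ofAdd 1) (FreeGroup.of (some i)) =
      FreeGroup.of none ^ (p i) * FreeGroup.of (some i) * FreeGroup.of none ^ (q i))
    (hθ : ∀ (l l' : I × Bool) (m : ℤ), θ l' - θ l + m = 0 → l = l') :
    Function.Injective (mainHom θ he ht0 hp hq ψ h0 h1) := by
  classical
  rw [injective_iff_map_eq_one]
  intro g hg
  obtain ⟨w, k, rfl⟩ : ∃ (w : FreeGroup (Option I)) (k : ℤ),
      SemidirectProduct.inl w * SemidirectProduct.inr (Multiplicative.ofAdd k) = g :=
    ⟨g.left, g.right.toAdd, by simp⟩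
  rw [map_mul, mainHom, SemidirectProduct.lift_inl, SemidirectProduct.lift_inr,
    cycHom_apply] at hg
  have hg2 : freeHom e s θ he ht0 w =
      LU σ t (Multiplicative.ofAdd (-((k : ℚ) • dg e 0))) := by
    rw [ofAdd_neg, map_inv]
    exact eq_inv_of_mul_eq_one_left hg
  have hval := freeHom_mk e s θ he ht0 w.toWord
  rw [FreeGroup.mk_toWord, hg2, LU_val] at hval
  have hX : ∀ r : ℕ, t ^ r • spec (ι := σ ⊕ σ) t (C (low (-((k : ℚ) • dg e 0)))) =
      spec t (X ^ r * C (low (-((k : ℚ) • dg e 0)))) := by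
    intro r
    rw [map_mul, map_pow, spec_X, _root_.smul_pow, one_pow, smul_mul_assoc, one_mul]
  rw [hX] at hval
  have hpoly := spec_injective ht hval
  by_cases hL : w.toWord = []
  · have hw : w = 1 := FreeGroup.toWord_eq_nil_iff.1 hL
    rw [hL] at hpoly
    simp only [List.map_nil, List.sum_nil, pow_zero, one_mul, List.prod_nil] at hpoly
    rw [← C_1] at hpoly
    have hM := C_injective hpoly
    obtain ⟨u, v, huv⟩ := exists_pair_ne σ
    have hk : k = 0 := by
      have hu := congrFun (congrFun hM (Sum.inr u)) (Sum.inl u)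
      have hv := congrFun (congrFun hM (Sum.inr v)) (Sum.inl v)
      simp [low, dg] at hu hv
      by_contra hk
      simp only [hk, false_or] at hu hv
      exact huv (he (hu.trans hv.symm))
    rw [hw, hk]
    simp
  · exfalso
    rcases state_of_isReduced e s θ hθ w.toWord hL FreeGroup.isReduced_toWord with
      ⟨b, m, -, hw, hp', hm⟩ | ⟨m, l, Γ, x, hw, -, hΓ, hcoef, -, -⟩
    · rw [hw, pow_zero, one_mul, hp'] at hpoly
      have hM := C_injective hpoly
      obtain ⟨u, v, huv⟩ := exists_pair_ne σ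
      have hu := congrFun (congrFun hM (Sum.inr u)) (Sum.inl u)
      have hv := congrFun (congrFun hM (Sum.inr v)) (Sum.inl v)
      simp [low, dg] at hu hv
      have hm0 : m = 0 := by
        by_contra hm0
        have hk : (k : ℚ) ≠ 0 := by
          intro hk
          rw [hk] at hu
          apply hm0
          have : (m : ℚ) = 0 := by linarith
          exact_mod_cast this
        have h3 : (k : ℚ) * (e u - e v) = 0 := by linarith
        rcases mul_eq_zero.1 h3 with h4 | h4
        · exact hk h4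
        · exact huv (he (sub_eq_zero.1 h4))
      subst hm0
      cases b <;> simp at hm
    · rw [← hpoly] at hcoef
      have h3 : (X ^ ((w.toWord.map wt).sum) * C (low (-((k : ℚ) • dg e 0))) :
          (Matrix (σ ⊕ σ) (σ ⊕ σ) ℚ)[X]).coeff (2 * (w.toWord.map wt).sum) = 0 := by
        rw [X_pow_mul, coeff_C_mul, coeff_X_pow, if_neg (by omega), mul_zero]
      rw [h3] at hcoef
      have h4 := vecMulVec_eq_zero.1 hcoef.symm
      rcases h4 with h4 | h4
      · exact vec_ne_zero s θ m l h4
      · exact hΓ h4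

end Hom

end Run7.h33.Gersten
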