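import Mathlib

/-!
# Matrices for the linear representation of free-by-cyclic groups of Gersten type

`σ` is a finite index set with an injective value map `e : σ → ℚ`.  All matrices are block
matrices over `σ ⊕ σ`.  `low X` is the unipotent lower block triangular matrix with lower left
block `X`.
-/

namespace Run7.h33.Gersten

open Matrix

variable {σ : Type*} [Fintype σ] [DecidableEq σ]

/-- lower block unitriangular matrix -/
def low (X : Matrix σ σ ℚ) : Matrix (σ ⊕ σ) (σ ⊕ σ) ℚ := fromBlocks 1 0 X 1

theorem low_mul (X Y : Matrix σ σ ℚ) : low X * low Y = low (X + Y) := by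
  simp [low, fromBlocks_multiply]

omit [Fintype σ] in
theorem low_zero : low (0 : Matrix σ σ ℚ) = 1 := by
  simp [low]

/-- lower block nilpotent matrix -/
def nil (X : Matrix σ σ ℚ) : Matrix (σ ⊕ σ) (σ ⊕ σ) ℚ := fromBlocks 0 0 X 0

omit [Fintype σ] in
theorem low_eq (X : Matrix σ σ ℚ) : low X = 1 + nil X := by
  rw [low, nil, ← fromBlocks_one, fromBlocks_add]
  simp

theorem nil_mul_nil (X Y : Matrix σ σ ℚ) : nil X * nil Y = 0 := by
  simp [nil, fromBlocks_multiply]

theorem low_mul_nil (X Y : Matrix σ σ ℚ) : low X * nil Y = nil Y := by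
  simp [low, nil, fromBlocks_multiply]

theorem nil_mul_low (X Y : Matrix σ σ ℚ) : nil Y * low X = nil Y := by
  simp [low, nil, fromBlocks_multiply]

variable (e : σ → ℚ)

/-- diagonal block with entries `c - e u` -/
def dg (c : ℚ) : Matrix σ σ ℚ := diagonal fun u => c - e u

/-- the shear block `m_s`: entry `(w,u)` equal to `1` if `u = s`, and if `w = s` -/
def shear (s : σ) : Matrix σ σ ℚ := of fun w u => if u = s ∨ w = s then 1 else 0

/-- matrix unit -/
def unitM (s s' : σ) : Matrix σ σ ℚ := of fun w u => if w = s ∧ u = s' then 1 else 0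

/-- partial permutation block -/
def permP (s s' : σ) : Matrix σ σ ℚ :=
  of fun w u => if w ≠ s ∧ u = Equiv.swap s s' w then 1 else 0

/-- weighted partial permutation block -/
def permQ (s s' : σ) : Matrix σ σ ℚ :=
  of fun w u => if w ≠ s ∧ u = Equiv.swap s s' w then
    (e s - e w) / (e s' - e (Equiv.swap s s' w)) else 0

def E2 (s s' : σ) : Matrix (σ ⊕ σ) (σ ⊕ σ) ℚ := fromBlocks 0 (unitM s s') 0 0
def E1 (s s' : σ) : Matrix (σ ⊕ σ) (σ ⊕ σ) ℚ := fromBlocks (permP s s') 0 0 (permQ e s s')
def E0 (s s' : σ) : Matrix (σ ⊕ σ) (σ ⊕ σ) ℚ := fromBlocks 0 0 (unitM s s') 0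

omit [Fintype σ] in
theorem swap_ne {s s' w : σ} (h : w ≠ s) : Equiv.swap s s' w ≠ s' := by
  intro h'
  apply h
  have := congrArg (Equiv.swap s s') h'
  simpa using this

theorem unit_mul_unit (s s' : σ) : unitM s s' * unitM s' s = unitM s s := by
  ext w u
  simp only [unitM, mul_apply, of_apply, mul_ite, mul_one, mul_zero, ← ite_and]
  by_cases hw : w = s <;> by_cases hu : u = s <;> simp [hw, hu]

theorem permP_mul_permP (s s' : σ) : permP s s' * permP s' s = 1 - unitM s s := by
  ext w u
  rw [mul_apply]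
  rw [Finset.sum_eq_single (Equiv.swap s s' w)]
  · by_cases hw : w = s
    · subst hw
      by_cases hu : u = w <;> simp [permP, unitM, hu, Matrix.one_apply, eq_comm]
    · have h1 : Equiv.swap s s' w ≠ s' := swap_ne hw
      by_cases hu : u = w
      · subst hu
        simp [permP, unitM, hw, h1, Equiv.swap_comm s' s]
      · simp [permP, unitM, hw, h1, Equiv.swap_comm s' s, hu, Ne.symm hu]
  · intro b _ hb
    simp [permP, hb]
  · simp

theorem permQ_mul_permQ (he : Function.Injective e) (s s' : σ) :
    permQ e s s' * permQ e s' s = 1 - unitM s s := by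
  ext w u
  rw [mul_apply]
  rw [Finset.sum_eq_single (Equiv.swap s s' w)]
  · by_cases hw : w = s
    · subst hw
      by_cases hu : u = w <;> simp [permQ, unitM, hu, Matrix.one_apply, eq_comm]
    · have h1 : Equiv.swap s s' w ≠ s' := swap_ne hw
      have h2 : e s - e w ≠ 0 := sub_ne_zero.2 fun h => hw (he h).symm
      have h3 : e s' - e (Equiv.swap s s' w) ≠ 0 := sub_ne_zero.2 fun h => h1 (he h).symm
      by_cases hu : u = w
      · subst hu
        simp [permQ, unitM, hw, h1, Equiv.swap_comm s' s]
        field_simp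
      · simp [permQ, unitM, hw, h1, Equiv.swap_comm s' s, hu, Ne.symm hu]
  · intro b _ hb
    simp [permQ, hb]
  · simp

theorem unit_mul_permQ (s s' : σ) : unitM s s' * permQ e s' s = 0 := by
  ext w u
  simp only [mul_apply, unitM, permQ, of_apply, ite_mul, one_mul, zero_mul, Matrix.zero_apply]
  apply Finset.sum_eq_zero
  intro x _
  by_cases hx : x = s' <;> simp [hx]

theorem unit_mul_permP (s s' : σ) : unitM s s' * permP s' s = 0 := by
  ext w u
  simp only [mul_apply, unitM, permP, of_apply, ite_mul, one_mul, zero_mul, Matrix.zero_apply]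
  apply Finset.sum_eq_zero
  intro x _
  by_cases hx : x = s' <;> simp [hx]

theorem permP_mul_unit (s s' : σ) : permP s s' * unitM s' s = 0 := by
  ext w u
  simp only [mul_apply, unitM, permP, of_apply, mul_ite, mul_one, mul_zero, Matrix.zero_apply]
  apply Finset.sum_eq_zero
  intro x _
  by_cases hx : x = s'
  · subst hx
    by_cases hw : w = s
    · simp [hw]
    · have h1 : Equiv.swap s x w ≠ x := swap_ne hw
      simp [hw, Ne.symm h1]
  · simp [hx]

theorem permQ_mul_unit (s s' : σ) : permQ e s s' * unitM s' s = 0 := by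
  ext w u
  simp only [mul_apply, unitM, permQ, of_apply, mul_ite, mul_one, mul_zero, Matrix.zero_apply]
  apply Finset.sum_eq_zero
  intro x _
  by_cases hx : x = s'
  · subst hx
    by_cases hw : w = s
    · simp [hw]
    · have h1 : Equiv.swap s x w ≠ x := swap_ne hw
      simp [hw, Ne.symm h1]
  · simp [hx]

theorem dg_mul_unit (s s' : σ) : dg e (e s) * unitM s s' = 0 := by
  ext w u
  simp only [dg, diagonal_mul, unitM, of_apply, Matrix.zero_apply]
  by_cases hw : w = s <;> simp [hw]

theorem unit_mul_dg (s s' : σ) : unitM s s' * dg e (e s') = 0 := by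
  ext w u
  simp only [dg, mul_diagonal, unitM, of_apply, Matrix.zero_apply]
  by_cases hw : u = s' <;> simp [hw]

theorem dg_mul_permP (he : Function.Injective e) (s s' : σ) :
    dg e (e s) * permP s s' = permQ e s s' * dg e (e s') := by
  ext w u
  simp only [dg, diagonal_mul, mul_diagonal, permP, permQ, of_apply]
  by_cases hw : w = s
  · simp [hw]
  · by_cases hu : u = Equiv.swap s s' w
    · have h1 : Equiv.swap s s' w ≠ s' := swap_ne hw
      have h3 : e s' - e (Equiv.swap s s' w) ≠ 0 := sub_ne_zero.2 fun h => h1 (he h).symm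
      subst hu
      simp [hw]
      field_simp
    · simp [hw, hu]

theorem E22 (s s' : σ) : E2 s s' * E2 s' s = 0 := by
  simp [E2, fromBlocks_multiply]

theorem E21 (s s' : σ) : E2 s s' * E1 e s' s = 0 := by
  simp [E2, E1, fromBlocks_multiply, unit_mul_permQ]

theorem E12 (s s' : σ) : E1 e s s' * E2 s' s = 0 := by
  simp [E2, E1, fromBlocks_multiply, permP_mul_unit]

theorem E10 (s s' : σ) : E1 e s s' * E0 s' s = 0 := by
  simp [E0, E1, fromBlocks_multiply, permQ_mul_unit]

theorem E01 (s s' : σ) : E0 s s' * E1 e s' s = 0 := by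
  simp [E0, E1, fromBlocks_multiply, unit_mul_permP]

theorem E00 (s s' : σ) : E0 s s' * E0 s' s = 0 := by
  simp [E0, fromBlocks_multiply]

theorem E_mid (he : Function.Injective e) (s s' : σ) :
    E2 s s' * E0 s' s + E1 e s s' * E1 e s' s + E0 s s' * E2 s' s = 1 := by
  simp [E0, E1, E2, fromBlocks_multiply, fromBlocks_add, unit_mul_unit, permP_mul_permP,
    permQ_mul_permQ e he]

theorem T2 (s s' : σ) : nil (dg e (e s)) * E2 s s' = E2 s s' * nil (dg e (e s')) := by
  simp [nil, E2, fromBlocks_multiply, dg_mul_unit, unit_mul_dg]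

theorem T1 (he : Function.Injective e) (s s' : σ) :
    nil (dg e (e s)) * E1 e s s' = E1 e s s' * nil (dg e (e s')) := by
  simp [nil, E1, fromBlocks_multiply, dg_mul_permP e he]

theorem T0 (s s' : σ) : nil (dg e (e s)) * E0 s s' = E0 s s' * nil (dg e (e s')) := by
  simp [nil, E0, fromBlocks_multiply]

end Run7.h33.Gersten
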