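import Pool.Agent.Run7.h33.GerstenWords

/-!
# The representation
-/

namespace Run7.h33.Gersten

open Matrix Polynomial

variable {σ : Type*} [Fintype σ] [DecidableEq σ]
variable {I : Type*}
variable (e : σ → ℚ) (s : I × Bool → σ) (θ : I × Bool → ℚ)

theorem C_low_neg_mul (Y : Matrix σ σ ℚ) :
    (C (low (-Y)) : (Matrix (σ ⊕ σ) (σ ⊕ σ) ℚ)[X]) * C (low Y) = 1 := by
  rw [← C_mul, low_mul, neg_add_cancel, low_zero, C_1]

theorem C_low_mul_neg (Y : Matrix σ σ ℚ) :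
    (C (low Y) : (Matrix (σ ⊕ σ) (σ ⊕ σ) ℚ)[X]) * C (low (-Y)) = 1 := by
  rw [← C_mul, low_mul, add_neg_cancel, low_zero, C_1]

/-- the middle polynomial -/
noncomputable def mid (a b : σ) : (Matrix (σ ⊕ σ) (σ ⊕ σ) ℚ)[X] :=
  C (E2 a b) * X ^ 2 + C (E1 e a b) * X + C (E0 a b)

theorem expand_aux {P : Type*} [Ring P] (x a2 a1 a0 b2 b1 b0 : P)
    (h2 : Commute x b2) (h1 : Commute x b1) (h0 : Commute x b0) :
    (a2 * x ^ 2 + a1 * x + a0) * (b2 * x ^ 2 + b1 * x + b0) =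
      (a2 * b2) * x ^ 4 + (a2 * b1 + a1 * b2) * x ^ 3 + (a2 * b0 + a1 * b1 + a0 * b2) * x ^ 2 +
      (a1 * b0 + a0 * b1) * x + a0 * b0 := by
  have g2 : x ^ 2 * b2 = b2 * x ^ 2 := (h2.pow_left 2).eq
  have g1 : x ^ 2 * b1 = b1 * x ^ 2 := (h1.pow_left 2).eq
  have g0 : x ^ 2 * b0 = b0 * x ^ 2 := (h0.pow_left 2).eq
  have e22 : a2 * x ^ 2 * (b2 * x ^ 2) = (a2 * b2) * x ^ 4 := by
    rw [mul_assoc, ← mul_assoc (x ^ 2), g2, mul_assoc b2, ← pow_add, ← mul_assoc]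
  have e21 : a2 * x ^ 2 * (b1 * x) = (a2 * b1) * x ^ 3 := by
    rw [mul_assoc, ← mul_assoc (x ^ 2), g1, mul_assoc b1, ← pow_succ, ← mul_assoc]
  have e20 : a2 * x ^ 2 * b0 = (a2 * b0) * x ^ 2 := by
    rw [mul_assoc, g0, ← mul_assoc]
  have e12 : a1 * x * (b2 * x ^ 2) = (a1 * b2) * x ^ 3 := by
    rw [mul_assoc, ← mul_assoc x, h2.eq, mul_assoc b2, ← pow_succ', ← mul_assoc]
  have e11 : a1 * x * (b1 * x) = (a1 * b1) * x ^ 2 := by
    rw [mul_assoc, ← mul_assoc x, h1.eq, mul_assoc b1, ← sq, ← mul_assoc]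
  have e10 : a1 * x * b0 = (a1 * b0) * x := by
    rw [mul_assoc, h0.eq, ← mul_assoc]
  rw [mul_add, mul_add, add_mul, add_mul, add_mul, add_mul, add_mul, add_mul, e22, e21, e20, e12,
    e11, e10]
  simp only [add_mul, mul_assoc]
  abel

theorem mid_mul_mid (he : Function.Injective e) (a b : σ) :
    mid e a b * mid e b a = X ^ 2 := by
  unfold mid
  rw [expand_aux X _ _ _ _ _ _ (commute_X _) (commute_X _)
    (commute_X _)]
  have h0 : (C (E2 a b) * C (E2 b a) : (Matrix (σ ⊕ σ) (σ ⊕ σ) ℚ)[X]) = 0 := by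
    rw [← C_mul, E22, C_0]
  have h1 : (C (E2 a b) * C (E1 e b a) + C (E1 e a b) * C (E2 b a) :
      (Matrix (σ ⊕ σ) (σ ⊕ σ) ℚ)[X]) = 0 := by
    rw [← C_mul, ← C_mul, E21, E12, C_0, add_zero]
  have h2 : (C (E2 a b) * C (E0 b a) + C (E1 e a b) * C (E1 e b a) + C (E0 a b) * C (E2 b a) :
      (Matrix (σ ⊕ σ) (σ ⊕ σ) ℚ)[X]) = 1 := by
    rw [← C_mul, ← C_mul, ← C_mul, ← C_add, ← C_add, E_mid e he, C_1]
  have h3 : (C (E1 e a b) * C (E0 b a) + C (E0 a b) * C (E1 e b a) :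
      (Matrix (σ ⊕ σ) (σ ⊕ σ) ℚ)[X]) = 0 := by
    rw [← C_mul, ← C_mul, E10, E01, C_0, add_zero]
  have h4 : (C (E0 a b) * C (E0 b a) : (Matrix (σ ⊕ σ) (σ ⊕ σ) ℚ)[X]) = 0 := by
    rw [← C_mul, E00, C_0]
  rw [h0, h1, h2, h3, h4]
  simp only [zero_mul, one_mul, zero_add, add_zero]

theorem pol_mul_opp (he : Function.Injective e) (l : I × Bool) :
    pol e s θ l * pol e s θ (opp l) = X ^ 2 := by
  have h1 : pol e s θ l = C (low (θ l • shear (s l))) * mid e (s l) (s (opp l)) *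
    C (low (-(θ (opp l) • shear (s (opp l))))) := by
    rw [pol, mid, neg_smul]
  have h2 : pol e s θ (opp l) = C (low (θ (opp l) • shear (s (opp l)))) *
      mid e (s (opp l)) (s l) * C (low (-(θ l • shear (s l)))) := by
    rw [pol, mid, neg_smul, opp_opp]
  rw [h1, h2]
  calc _ = C (low (θ l • shear (s l))) * (mid e (s l) (s (opp l)) *
        (C (low (-(θ (opp l) • shear (s (opp l))))) * C (low (θ (opp l) • shear (s (opp l))))) *
        mid e (s (opp l)) (s l)) * C (low (-(θ l • shear (s l)))) := by noncomm_ring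
    _ = C (low (θ l • shear (s l))) * X ^ 2 * C (low (-(θ l • shear (s l)))) := by
        rw [C_low_neg_mul, mul_one, mid_mul_mid e he]
    _ = _ := by
        rw [← X_pow_mul, mul_assoc, C_low_mul_neg, mul_one]

theorem C_nil_mul_mid (he : Function.Injective e) (a b : σ) :
    C (nil (dg e (e a))) * mid e a b = mid e a b * C (nil (dg e (e b))) := by
  unfold mid
  rw [mul_add, mul_add, add_mul, add_mul]
  congr 1
  · congr 1
    · rw [← mul_assoc, ← C_mul, T2, mul_assoc, X_pow_mul, ← mul_assoc, ← C_mul]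
    · rw [← mul_assoc, ← C_mul, T1 e he, mul_assoc, X_mul, ← mul_assoc, ← C_mul]
  · rw [← C_mul, ← C_mul, T0]

theorem C_low_mul_mid (he : Function.Injective e) (a b : σ) :
    C (low (dg e (e a))) * mid e a b = mid e a b * C (low (dg e (e b))) := by
  rw [low_eq, low_eq, C_add, C_add, add_mul, mul_add, C_nil_mul_mid e he, C_1, one_mul, mul_one]

theorem C_low_mul_pol (he : Function.Injective e) (l : I × Bool) :
    C (low (dg e (e (s l)))) * pol e s θ l = pol e s θ l * C (low (dg e (e (s (opp l))))) := by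
  have h1 : pol e s θ l = C (low (θ l • shear (s l))) * mid e (s l) (s (opp l)) *
    C (low (-(θ (opp l)) • shear (s (opp l)))) := rfl
  rw [h1]
  rw [← mul_assoc, ← mul_assoc, ← C_mul, low_mul, add_comm, ← low_mul, C_mul]
  rw [mul_assoc (C (low (θ l • shear (s l)))), C_low_mul_mid e he]
  rw [← mul_assoc, mul_assoc _ (C (low (dg e (e (s (opp l)))))), ← C_mul, low_mul,
    add_comm, ← low_mul, C_mul, ← mul_assoc]

end Run7.h33.Gersten
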