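import Pool.Agent.Run7.h33.GerstenMatrices

/-!
# Leading coefficients of reduced words

Letters of the free group on `Option I` are pairs in `Option I × Bool`; `none` is the letter `a`.
-/

namespace Run7.h33.Gersten

open Matrix Polynomial

variable {σ : Type*} [Fintype σ] [DecidableEq σ]
variable {I : Type*}
variable (e : σ → ℚ) (s : I × Bool → σ) (θ : I × Bool → ℚ)

/-- the opposite letter -/
def opp (l : I × Bool) : I × Bool := (l.1, !l.2)

theorem opp_opp (l : I × Bool) : opp (opp l) = l := by
  simp [opp]

/-- the leading vector `(1 + m A) V_l` -/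
def vec (m : ℤ) (l : I × Bool) : σ ⊕ σ → ℚ :=
  Sum.elim (fun u => if u = s l then 1 else 0)
    (fun u => θ l + m * (if u = s l then 1 else 0))

/-- the leading covector `G_l` -/
def cov (l : I × Bool) : σ ⊕ σ → ℚ :=
  Sum.elim (fun _ => - θ l) (fun u => if u = s l then 1 else 0)

theorem cov_dot_vec (l l' : I × Bool) (m : ℤ) :
    cov s θ l ⬝ᵥ vec s θ m l' = θ l' - θ l + m * (if s l = s l' then 1 else 0) := by
  simp only [cov, vec, sumElim_dotProduct_sumElim]
  simp [dotProduct]
  ring

/-- the polynomial matrix of a stable letter -/
noncomputable def pol (l : I × Bool) : (Matrix (σ ⊕ σ) (σ ⊕ σ) ℚ)[X] :=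
  C (low (θ l • shear (s l))) *
    (C (E2 (s l) (s (opp l))) * X ^ 2 + C (E1 e (s l) (s (opp l))) * X
      + C (E0 (s l) (s (opp l)))) *
    C (low (-(θ (opp l)) • shear (s (opp l))))

theorem pol_natDegree (l : I × Bool) : (pol e s θ l).natDegree ≤ 2 := by
  unfold pol
  compute_degree

theorem pol_coeff (l : I × Bool) : (pol e s θ l).coeff 2 =
    vecMulVec (vec s θ 0 l) (cov s θ (opp l)) := by
  have h1 : (pol e s θ l).coeff 2 = low (θ l • shear (s l)) * E2 (s l) (s (opp l)) *
      low (-(θ (opp l)) • shear (s (opp l))) := by
    simp [pol]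
  rw [h1]
  have h2 : E2 (s l) (s (opp l)) =
      vecMulVec (Sum.elim (fun u => if u = s l then (1:ℚ) else 0) (fun _ => 0))
        (Sum.elim (fun _ => 0) (fun u => if u = s (opp l) then (1:ℚ) else 0)) := by
    ext i j
    rcases i with i | i <;> rcases j with j | j <;> simp [E2, unitM, vecMulVec_apply]
    split_ifs <;> simp_all
  rw [h2, mul_vecMulVec, vecMulVec_mul]
  congr 1
  · ext i
    rcases i with i | i
    · simp [low, vec, fromBlocks_mulVec]
    · simp [low, vec, mulVec, dotProduct, shear]
  · ext i
    rcases i with i | i
    · simp only [low, vecMul, dotProduct, cov, Fintype.sum_sum_type, Sum.elim_inl, Sum.elim_inr,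
        fromBlocks_apply₁₁, fromBlocks_apply₂₁, zero_mul, Finset.sum_const_zero, zero_add,
        Matrix.smul_apply, shear, of_apply, ite_mul, one_mul, smul_eq_mul]
      rw [Finset.sum_ite_eq' Finset.univ (s (opp l))]
      simp
    · simp [low, cov, vecMul, dotProduct, Matrix.one_apply, eq_comm]

theorem low_mulVec_vec (m k : ℤ) (l : I × Bool) :
    low ((k : ℚ) • (1 : Matrix σ σ ℚ)) *ᵥ vec s θ m l = vec s θ (k + m) l := by
  ext i
  rcases i with i | i
  · simp [low, vec, fromBlocks_mulVec]
  · simp [low, vec, fromBlocks_mulVec, smul_mulVec]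
    by_cases h : i = s l
    · simp [h]; ring
    · simp [h]

omit [Fintype σ] in
theorem vec_ne_zero (m : ℤ) (l : I × Bool) : vec s θ m l ≠ 0 := by
  intro h
  have := congrFun h (Sum.inl (s l))
  simp [vec] at this

/-- matrix polynomial of a letter of the free group -/
noncomputable def ev : Option I × Bool → (Matrix (σ ⊕ σ) (σ ⊕ σ) ℚ)[X]
  | (none, b) => C (low (((if b then 1 else -1 : ℤ) : ℚ) • 1))
  | (some i, b) => pol e s θ (i, b)

/-- weight of a letter -/
def wt : Option I × Bool → ℕ
  | (none, _) => 0
  | (some _, _) => 1

/-- compatibility of the head letter with the leading data -/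
def HeadOK (x : Option I × Bool) (m : ℤ) (l : I × Bool) : Prop :=
  match x with
  | (none, true) => 0 < m
  | (none, false) => m < 0
  | (some i, b) => m = 0 ∧ l = (i, b)

/-- state of a word -/
def State (L : List (Option I × Bool)) : Prop :=
  (∃ (b : Bool) (m : ℤ), L.head? = some (none, b) ∧ (L.map wt).sum = 0 ∧
    (L.map (ev e s θ)).prod = C (low ((m : ℚ) • 1)) ∧ (if b then 0 < m else m < 0)) ∨
  (∃ (m : ℤ) (l : I × Bool) (Γ : σ ⊕ σ → ℚ) (x : Option I × Bool),
    1 ≤ (L.map wt).sum ∧ ((L.map (ev e s θ)).prod).natDegree ≤ 2 * (L.map wt).sum ∧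
    Γ ≠ 0 ∧ ((L.map (ev e s θ)).prod).coeff (2 * (L.map wt).sum) = vecMulVec (vec s θ m l) Γ ∧
    L.head? = some x ∧ HeadOK x m l)

theorem pairing_ne {l l' : I × Bool} {m : ℤ}
    (hθ : ∀ (l l' : I × Bool) (m : ℤ), θ l' - θ l + m = 0 → l = l')
    (h : cov s θ l ⬝ᵥ vec s θ m l' = 0) : l = l' ∧ m = 0 := by
  rw [cov_dot_vec] at h
  by_cases hs : s l = s l'
  · rw [if_pos hs, mul_one] at h
    have := hθ l l' m h
    subst this
    simpa using h
  · exfalso
    apply hs
    rw [if_neg hs, mul_zero] at h
    rw [hθ l l' 0 (by simpa using h)]

theorem state_of_isReduced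
    (hθ : ∀ (l l' : I × Bool) (m : ℤ), θ l' - θ l + m = 0 → l = l') :
    ∀ (L : List (Option I × Bool)), L ≠ [] → FreeGroup.IsReduced L → State e s θ L := by
  intro L
  induction L with
  | nil => intro h; exact absurd rfl h
  | cons x L ih =>
    intro _ hred
    rcases L with _ | ⟨y, L⟩
    · -- single letter
      rcases x with ⟨_ | i, b⟩
      · left
        refine ⟨b, if b then 1 else -1, rfl, rfl, by simp [ev], ?_⟩
        cases b <;> simp
      · right
        refine ⟨0, (i, b), cov s θ (opp (i, b)), (some i, b), by simp [wt], ?_, ?_, ?_, rfl, rfl, rfl⟩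
        · simpa [wt, ev] using pol_natDegree e s θ (i, b)
        · intro h
          have := congrFun h (Sum.inr (s (opp (i, b))))
          simp [cov] at this
        · simpa [wt, ev] using pol_coeff e s θ (i, b)
    · have hred' : FreeGroup.IsReduced (y :: L) := hred.tail
      have hxy : x.1 = y.1 → x.2 = y.2 := (FreeGroup.isReduced_cons_cons.1 hred).1
      have IH := ih (by simp) hred'
      set L' := y :: L with hL'
      have hprod : ((x :: L').map (ev e s θ)).prod = ev e s θ x * (L'.map (ev e s θ)).prod := by
        simp
      have hsum : ((x :: L').map wt).sum = wt x + (L'.map wt).sum := by simp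
      rcases IH with ⟨b', m, hhead, hw, hp, hm⟩ | ⟨m, l, Γ, z, hw, hdeg, hΓ, hcoef, hhead, hz⟩
      · have hy : y = (none, b') := by simpa [hL'] using hhead
        subst hy
        rcases x with ⟨_ | i, b⟩
        · have hbb : b = b' := hxy rfl
          subst hbb
          left
          refine ⟨b, (if b then 1 else -1) + m, rfl, ?_, ?_, ?_⟩
          · rw [hsum, hw]; simp [wt]
          · rw [hprod, hp]
            simp only [ev]
            rw [← C_mul, low_mul, ← add_smul]
            congr 3
            push_cast
            ring
          · cases b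
            · simp only [Bool.false_eq_true, if_false] at hm ⊢
              omega
            · simp only [if_true] at hm ⊢
              omega
        · right
          refine ⟨0, (i, b), cov s θ (opp (i, b)) ᵥ* low ((m : ℚ) • 1), (some i, b), ?_, ?_, ?_,
            ?_, rfl, rfl, rfl⟩
          · rw [hsum]; simp [wt]
          · rw [hsum, hw, hprod, hp]
            simp only [ev, wt]
            exact (natDegree_mul_C_le _ _).trans (pol_natDegree e s θ (i, b))
          · intro h
            have := congrFun h (Sum.inr (s (opp (i, b))))
            simp [low, cov, vecMul, dotProduct, Matrix.one_apply] at this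
          · rw [hsum, hw, hprod, hp]
            simp only [ev, wt, add_zero, mul_one]
            rw [coeff_mul_C, pol_coeff, vecMulVec_mul]
      · have hy : z = y := by simpa [hL', eq_comm] using hhead
        subst hy
        rcases x with ⟨_ | i, b⟩
        · right
          refine ⟨(if b then 1 else -1) + m, l, Γ, (none, b), ?_, ?_, hΓ, ?_, rfl, ?_⟩
          · rw [hsum]; omega
          · rw [hsum, hprod]
            simp only [ev, wt, zero_add]
            exact (natDegree_C_mul_le _ _).trans hdeg
          · rw [hsum, hprod]
            simp only [ev, wt, zero_add]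
            rw [coeff_C_mul, hcoef, mul_vecMulVec, low_mulVec_vec]
          · rcases z with ⟨_ | j, b''⟩
            · have hbb : b = b'' := hxy rfl
              subst hbb
              cases b
              · simp only [HeadOK] at hz ⊢
                simp; omega
              · simp only [HeadOK] at hz ⊢
                simp; omega
            · simp only [HeadOK] at hz
              obtain ⟨rfl, rfl⟩ := hz
              cases b <;> simp [HeadOK]
        · right
          have hne : cov s θ (opp (i, b)) ⬝ᵥ vec s θ m l ≠ 0 := by
            intro h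
            obtain ⟨h1, h2⟩ := pairing_ne s θ hθ h
            subst h2
            rcases z with ⟨_ | j, b''⟩
            · cases b'' <;> simp [HeadOK] at hz
            · simp only [HeadOK, true_and] at hz
              rw [hz] at h1
              simp only [opp, Prod.mk.injEq] at h1
              have := hxy (by simp [h1.1])
              simp only at this
              rw [this] at h1
              simp at h1
          refine ⟨0, (i, b), (cov s θ (opp (i, b)) ⬝ᵥ vec s θ m l) • Γ, (some i, b), ?_, ?_, ?_,
            ?_, rfl, rfl, rfl⟩
          · rw [hsum]; omega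
          · rw [hsum, hprod]
            simp only [ev, wt]
            refine natDegree_mul_le.trans ?_
            have := pol_natDegree e s θ (i, b)
            omega
          · exact smul_ne_zero hne hΓ
          · rw [hsum, hprod]
            simp only [ev, wt]
            rw [mul_add, mul_one, coeff_mul_add_eq_of_natDegree_le (pol_natDegree e s θ (i, b)) hdeg,
              hcoef, pol_coeff, vecMulVec_mul_vecMulVec]

end Run7.h33.Gersten
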