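import Mathlib

/-!
# Linear groups over a field: basic closure properties
-/

namespace Run7.h33

open Matrix

/-- `G` embeds in `GL_d(K)` for some `d`. -/
def LinearOver (K : Type*) [Field K] (G : Type*) [Group G] : Prop :=
  ∃ (d : ℕ) (f : G →* GL (Fin d) K), Function.Injective f

variable {K : Type*} [Field K]

theorem LinearOver.of_injective {G H : Type*} [Group G] [Group H] (f : G →* H)
    (hf : Function.Injective f) (h : LinearOver K H) : LinearOver K G := by
  obtain ⟨d, g, hg⟩ := h
  exact ⟨d, g.comp f, hg.comp hf⟩

theorem LinearOver.of_units {ι : Type*} [Fintype ι] [DecidableEq ι] {G : Type*} [Group G]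
    (f : G →* (Matrix ι ι K)ˣ) (hf : Function.Injective f) : LinearOver K G := by
  let E : Matrix ι ι K ≃ₐ[K] Matrix (Fin (Fintype.card ι)) (Fin (Fintype.card ι)) K :=
    Matrix.reindexAlgEquiv K K (Fintype.equivFin ι)
  let E' : (Matrix ι ι K)ˣ ≃* (Matrix (Fin (Fintype.card ι)) (Fin (Fintype.card ι)) K)ˣ :=
    Units.mapEquiv (E : Matrix ι ι K ≃* Matrix (Fin (Fintype.card ι)) (Fin (Fintype.card ι)) K)
  refine ⟨Fintype.card ι, E'.toMonoidHom.comp f, ?_⟩
  intro x y h
  exact hf (E'.injective h)

theorem LinearOver.of_end {V : Type*} [AddCommGroup V] [Module K V] [Module.Finite K V]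
    {G : Type*} [Group G] (f : G →* (V →ₗ[K] V)) (hf : Function.Injective f) :
    LinearOver K G := by
  classical
  let b := Module.finBasis K V
  refine LinearOver.of_units (ι := Fin (Module.finrank K V))
    ((Units.map (LinearMap.toMatrixAlgEquiv b).toMulEquiv.toMonoidHom).comp f.toHomUnits) ?_
  intro x y hxy
  apply hf
  have := congrArg Units.val hxy
  simpa using this

/-- a group with a linear subgroup of finite index is linear -/
theorem LinearOver.of_finiteIndex {G : Type*} [Group G] (H : Subgroup G) [H.FiniteIndex]
    (h : LinearOver K H) : LinearOver K G := by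
  classical
  obtain ⟨d, ρ, hρ, hd⟩ : ∃ (d : ℕ) (ρ : H →* GL (Fin d) K), Function.Injective ρ ∧ d ≠ 0 := by
    obtain ⟨d, ρ, hρ⟩ := h
    by_cases hd : d = 0
    · subst hd
      refine ⟨1, 1, ?_, one_ne_zero⟩
      intro x y _
      exact hρ (Subsingleton.elim _ _)
    · exact ⟨d, ρ, hρ, hd⟩
  -- coinduced module
  let V : Submodule K (G → (Fin d → K)) :=
    { carrier := {f | ∀ (x : H) (g : G), f (x * g) = (ρ x : Matrix (Fin d) (Fin d) K) *ᵥ f g}
      add_mem' := by
        intro f1 f2 h1 h2 x g
        simp only [Pi.add_apply, h1 x g, h2 x g, Matrix.mulVec_add]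
      zero_mem' := by
        intro x g
        simp
      smul_mem' := by
        intro c f h1 x g
        simp only [Pi.smul_apply, h1 x g, Matrix.mulVec_smul] }
  let act : G →* (V →ₗ[K] V) :=
    { toFun := fun g =>
        { toFun := fun f => ⟨fun x => f.1 (x * g), by
            intro x y
            change f.1 (x * y * g) = _
            rw [mul_assoc]
            exact f.2 x (y * g)⟩
          map_add' := by intro f1 f2; rfl
          map_smul' := by intro c f; rfl }
      map_one' := by
        ext f : 1
        apply Subtype.ext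
        funext x
        change f.1 (x * 1) = f.1 x
        rw [mul_one]
      map_mul' := by
        intro g1 g2
        ext f : 1
        apply Subtype.ext
        funext x
        change f.1 (x * (g1 * g2)) = f.1 (x * g1 * g2)
        rw [mul_assoc] }
  -- finite dimensionality
  have hfin : Module.Finite K V := by
    let T := Quotient (QuotientGroup.rightRel H)
    have : Finite T := by
      have e := QuotientGroup.quotientRightRelEquivQuotientLeftRel H
      have : Finite (G ⧸ H) := Subgroup.finite_quotient_of_finiteIndex
      exact Finite.of_equiv _ e.symm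
    let ev : V →ₗ[K] (T → (Fin d → K)) :=
      { toFun := fun f t => f.1 t.out
        map_add' := by intro f1 f2; rfl
        map_smul' := by intro c f; rfl }
    refine Module.Finite.of_injective ev ?_
    rw [← LinearMap.ker_eq_bot, LinearMap.ker_eq_bot']
    intro f hf
    apply Subtype.ext
    funext x
    have h1 : f.1 ((Quotient.mk (QuotientGroup.rightRel H) x).out) = 0 :=
      congrFun hf (Quotient.mk (QuotientGroup.rightRel H) x)
    have h2 : (QuotientGroup.rightRel H) (Quotient.mk (QuotientGroup.rightRel H) x).out x :=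
      Quotient.mk_out x
    rw [QuotientGroup.rightRel_apply] at h2
    have h3 := f.2 ⟨_, h2⟩ ((Quotient.mk (QuotientGroup.rightRel H) x).out)
    rw [h1] at h3
    simpa using h3
  refine LinearOver.of_end act ?_
  rw [injective_iff_map_eq_one]
  intro g hg
  -- test functions supported on `H`
  let test (v : Fin d → K) : V :=
    ⟨fun x => if hx : x ∈ H then (ρ ⟨x, hx⟩ : Matrix (Fin d) (Fin d) K) *ᵥ v else 0, by
      intro x y
      by_cases hy : y ∈ H
      · have hxy : (x : G) * y ∈ H := H.mul_mem x.2 hy
        simp only [hxy, hy, dif_pos]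
        have : (⟨(x : G) * y, hxy⟩ : H) = x * ⟨y, hy⟩ := rfl
        rw [this, map_mul, Units.val_mul, Matrix.mulVec_mulVec]
      · have hxy : ¬ (x : G) * y ∈ H := by
          intro hxy
          exact hy ((H.mul_mem_cancel_left x.2).1 hxy)
        simp only [hxy, hy, dif_neg, not_false_eq_true, Matrix.mulVec_zero]⟩
  have key : ∀ v : Fin d → K, (test v).1 g = v := by
    intro v
    have h1 := congrArg (fun F : V →ₗ[K] V => (F (test v)).1 1) hg
    change (test v).1 (1 * g) = (test v).1 1 at h1
    rw [one_mul] at h1
    rw [h1]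
    simp only [test, H.one_mem, dif_pos]
    have : (⟨(1 : G), H.one_mem⟩ : H) = 1 := rfl
    rw [this]
    simp
  have hgH : g ∈ H := by
    by_contra hgH
    have h1 := key (fun _ => 1)
    simp only [test, hgH, dif_neg, not_false_eq_true] at h1
    have h2 := congrFun h1 ⟨0, Nat.pos_of_ne_zero hd⟩
    simp at h2
  have h2 : ρ ⟨g, hgH⟩ = 1 := by
    ext1
    apply Matrix.ext_of_mulVec_single
    intro i
    have h1 := key (Pi.single i 1)
    simp only [test, hgH, dif_pos] at h1
    rw [h1, Units.val_one, Matrix.one_mulVec]
  have h3 : (⟨g, hgH⟩ : H) = 1 := hρ (by rw [h2, map_one])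
  exact congrArg Subtype.val h3

end Run7.h33
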