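import Pool.Agent.Run7.h33.GerstenGroup
import Pool.Agent.Run7.h33.LinearOver

/-!
# Linearity of the groups `F ⋊ ℤ` with `a ↦ a`, `b_i ↦ a^{p_i} b_i a^{q_i}`
-/

namespace Run7.h33.Gersten

open Matrix

theorem exists_theta (I : Type*) [Finite I] : ∃ θ : I × Bool → ℚ,
    ∀ (l l' : I × Bool) (m : ℤ), θ l' - θ l + m = 0 → l = l' := by
  classical
  obtain ⟨n, ⟨E⟩⟩ := Finite.exists_equiv_fin (I × Bool)
  refine ⟨fun l => ((E l : ℕ) : ℚ) / n, ?_⟩
  intro l l' m h
  have hn : 0 < n := Nat.pos_of_ne_zero (by rintro rfl; exact (E l).elim0)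
  have hn' : (n : ℚ) ≠ 0 := by positivity
  have h1 : ((E l' : ℕ) : ℚ) - (E l : ℕ) + m * n = 0 := by
    field_simp at h
    linarith
  have h2 : ((E l' : ℕ) : ℤ) - (E l : ℕ) + m * n = 0 := by exact_mod_cast h1
  have h3 := (E l).2
  have h4 := (E l').2
  have hm : m = 0 := by
    by_contra hm
    rcases lt_or_gt_of_ne hm with hm | hm
    · have : m * n ≤ -1 * n := by
        apply mul_le_mul_of_nonneg_right <;> omega
      omega
    · have : 1 * (n : ℤ) ≤ m * n := by
        apply mul_le_mul_of_nonneg_right <;> omega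
      omega
  subst hm
  apply E.injective
  apply Fin.ext
  omega

/-- Theorem A. -/
theorem linear_of_gersten {K : Type*} [Field K] [CharZero K] (hK : ∃ t : K, Transcendental ℚ t)
    {I : Type*} [Finite I] (p q : I → ℤ)
    (ψ : Multiplicative ℤ →* MulAut (FreeGroup (Option I)))
    (h0 : ψ (Multiplicative.ofAdd 1) (FreeGroup.of none) = FreeGroup.of none)
    (h1 : ∀ i, ψ (Multiplicative.ofAdd 1) (FreeGroup.of (some i)) =
      FreeGroup.of none ^ (p i) * FreeGroup.of (some i) * FreeGroup.of none ^ (q i)) :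
    LinearOver K (FreeGroup (Option I) ⋊[ψ] Multiplicative ℤ) := by
  classical
  have : Fintype I := Fintype.ofFinite I
  obtain ⟨t, ht⟩ := hK
  obtain ⟨θ, hθ⟩ := exists_theta I
  let S : Finset ℤ := Finset.univ.image (fun i => - p i) ∪ Finset.univ.image q ∪ {0, 1}
  have hS1 : ∀ i, - p i ∈ S := fun i => by simp [S]
  have hS2 : ∀ i, q i ∈ S := fun i => by simp [S]
  have h0S : (0 : ℤ) ∈ S := by simp [S]
  have h1S : (1 : ℤ) ∈ S := by simp [S]
  let e : S → ℚ := fun u => ((u : ℤ) : ℚ)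
  have he : Function.Injective e := fun u v h =>
    Subtype.ext (Int.cast_injective (α := ℚ) h)
  let s : I × Bool → S := fun l => if l.2 then ⟨- p l.1, hS1 l.1⟩ else ⟨q l.1, hS2 l.1⟩
  have hp : ∀ i, e (s (i, true)) = -(p i) := fun i => by simp [e, s]
  have hq : ∀ i, e (s (i, false)) = q i := fun i => by simp [e, s]
  have : Nontrivial S := ⟨⟨0, h0S⟩, ⟨1, h1S⟩, by simp⟩
  have ht0 : t ≠ 0 := by
    rintro rfl
    exact ht (isAlgebraic_zero)
  exact LinearOver.of_units (mainHom θ he ht0 hp hq ψ h0 h1)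
    (mainHom_injective θ he ht ht0 hp hq ψ h0 h1 hθ)

end Run7.h33.Gersten
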