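import Pool.Agent.Run7.h33.TheoremA

/-!
# Automorphisms twisting basis letters by powers of fixed letters
-/

namespace Run7.h33.Gersten

open FreeGroup (of lift_apply_of freeGroupCongr)

/-- the automorphism `a ↦ a`, `b_i ↦ a^{p_i} b_i a^{q_i}` -/
def twHom {I : Type*} (p q : I → ℤ) : FreeGroup (Option I) →* FreeGroup (Option I) :=
  FreeGroup.lift fun x => match x with
    | none => of none
    | some i => of none ^ (p i) * of (some i) * of none ^ (q i)

@[simp] theorem twHom_none {I : Type*} (p q : I → ℤ) : twHom p q (of none) = of none := by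
  simp [twHom]

@[simp] theorem twHom_some {I : Type*} (p q : I → ℤ) (i : I) : twHom p q (of (some i)) =
    of none ^ (p i) * of (some i) * of none ^ (q i) := by
  simp [twHom]

theorem twHom_comp {I : Type*} (p q : I → ℤ) :
    (twHom (fun i => - p i) (fun i => - q i)).comp (twHom p q) = MonoidHom.id _ := by
  apply FreeGroup.ext_hom
  intro x
  rcases x with _ | i
  · simp
  · simp only [MonoidHom.comp_apply, twHom_some, map_mul, map_zpow, twHom_none, MonoidHom.id_apply]
    group

/-- the automorphism `a ↦ a`, `b_i ↦ a^{p_i} b_i a^{q_i}` -/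
def tw {I : Type*} (p q : I → ℤ) : MulAut (FreeGroup (Option I)) :=
  MonoidHom.toMulEquiv (twHom p q) (twHom (fun i => - p i) (fun i => - q i)) (twHom_comp p q) (by
    have := twHom_comp (fun i => - p i) (fun i => - q i)
    simpa using this)

theorem tw_apply {I : Type*} (p q : I → ℤ) (w : FreeGroup (Option I)) :
    tw p q w = twHom p q w := rfl

/-- `φ` twists basis letters by powers of fixed letters: every basis letter `x_i` is fixed by `φ`
or `φ(x_i) = x_j^p x_i x_k^q` for some letters `x_j`, `x_k` fixed by `φ` and integers `p`, `q`. -/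
def Twisted {X : Type*} (φ : MulAut (FreeGroup X)) : Prop :=
  ∀ i, φ (of i) = of i ∨ ∃ (j k : X) (p q : ℤ), φ (of j) = of j ∧ φ (of k) = of k ∧
    φ (of i) = of j ^ p * of i * of k ^ q

section Embed

variable {X : Type*}

/-- data of a twisted automorphism -/
structure TwData (φ : MulAut (FreeGroup X)) where
  fixd : X → Prop
  dec : DecidablePred fixd
  j : X → X
  k : X → X
  p : X → ℤ
  q : X → ℤ
  hfix : ∀ i, fixd i → φ (of i) = of i
  hmov : ∀ i, ¬ fixd i → fixd (j i) ∧ fixd (k i) ∧
    φ (of i) = of (j i) ^ (p i) * of i * of (k i) ^ (q i)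

theorem exists_twData {φ : MulAut (FreeGroup X)} (h : Twisted φ) : Nonempty (TwData φ) := by
  classical
  have h' : ∀ i, ∃ (jk : X × X) (pq : ℤ × ℤ), ¬ (φ (of i) = of i) →
      φ (of jk.1) = of jk.1 ∧ φ (of jk.2) = of jk.2 ∧
        φ (of i) = of jk.1 ^ pq.1 * of i * of jk.2 ^ pq.2 := by
    intro i
    rcases h i with h1 | ⟨j, k, p, q, h1, h2, h3⟩
    · exact ⟨(i, i), (0, 0), fun h2 => absurd h1 h2⟩
    · exact ⟨(j, k), (p, q), fun _ => ⟨h1, h2, h3⟩⟩
  choose jk pq hh using h'
  exact ⟨⟨fun i => φ (of i) = of i, fun i => inferInstance, fun i => (jk i).1, fun i => (jk i).2,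
    fun i => (pq i).1, fun i => (pq i).2, fun i hi => hi, fun i hi => hh i hi⟩⟩

variable {φ : MulAut (FreeGroup X)} (D : TwData φ)

attribute [instance] TwData.dec

/-- exponents of the ambient automorphism -/
def TwData.P (i : X) : ℤ := if D.fixd i then 0 else D.p i
/-- exponents of the ambient automorphism -/
def TwData.Q (i : X) : ℤ := if D.fixd i then 0 else D.q i

/-- the embedding into the ambient free group -/
def TwData.emb : FreeGroup X →* FreeGroup (Option X) :=
  FreeGroup.lift fun i => if D.fixd i then of (some i) * of none * (of (some i))⁻¹ else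
    of (some (D.j i)) * of (some i) * (of (some (D.k i)))⁻¹

theorem TwData.emb_equivariant (w : FreeGroup X) : D.emb (φ w) = tw D.P D.Q (D.emb w) := by
  have key : D.emb.comp φ.toMonoidHom = (twHom D.P D.Q).comp D.emb := by
    apply FreeGroup.ext_hom
    intro i
    simp only [MonoidHom.comp_apply, MulEquiv.coe_toMonoidHom]
    by_cases hi : D.fixd i
    · rw [D.hfix i hi]
      simp [TwData.emb, hi, TwData.P, TwData.Q]
    · obtain ⟨hj, hk, h⟩ := D.hmov i hi
      rw [h]
      simp only [map_mul, map_zpow, TwData.emb, lift_apply_of, hi, hj, hk, if_true, if_false,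
        twHom_some, TwData.P, TwData.Q, map_inv, zpow_zero, one_mul, mul_one]
      rw [conj_zpow, conj_zpow]
      group
  exact DFunLike.congr_fun key w

/-- left multiplication of the index set by the free group -/
def shiftHom (X : Type*) : FreeGroup X →* MulAut (FreeGroup (FreeGroup X × Option X)) where
  toFun g := freeGroupCongr ((Equiv.mulLeft g).prodCongr (Equiv.refl _))
  map_one' := by
    ext w
    induction w using FreeGroup.induction_on <;> simp_all
  map_mul' g h := by
    have key : (freeGroupCongr ((Equiv.mulLeft (g * h)).prodCongr (Equiv.refl (Option X)))) =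
        (freeGroupCongr ((Equiv.mulLeft h).prodCongr (Equiv.refl (Option X)))).trans
          (freeGroupCongr ((Equiv.mulLeft g).prodCongr (Equiv.refl (Option X)))) := by
      rw [FreeGroup.freeGroupCongr_trans]
      congr 1
      ext x <;> simp [mul_assoc]
    rw [key]
    rfl

/-- unfolding homomorphism -/
def TwData.unf : FreeGroup (Option X) →*
    FreeGroup (FreeGroup X × Option X) ⋊[shiftHom X] FreeGroup X :=
  FreeGroup.lift fun x => match x with
    | none => SemidirectProduct.inl (of (1, none))
    | some i => if D.fixd i then SemidirectProduct.inr (of i) else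
        (SemidirectProduct.inr (of (D.j i)))⁻¹ * SemidirectProduct.inl (of (1, some i)) *
          SemidirectProduct.inr (of (D.k i))

/-- the index map -/
def TwData.idx (i : X) : FreeGroup X × Option X :=
  if D.fixd i then (of i, none) else (1, some i)

theorem TwData.idx_injective : Function.Injective D.idx := by
  intro i i' h
  unfold TwData.idx at h
  by_cases hi : D.fixd i <;> by_cases hi' : D.fixd i' <;> simp [hi, hi'] at h
  · exact FreeGroup.of_injective h
  · exact h

theorem TwData.unf_emb (w : FreeGroup X) :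
    D.unf (D.emb w) = SemidirectProduct.inl (FreeGroup.map D.idx w) := by
  have key : D.unf.comp D.emb = SemidirectProduct.inl.comp (FreeGroup.map D.idx) := by
    apply FreeGroup.ext_hom
    intro i
    simp only [MonoidHom.comp_apply]
    by_cases hi : D.fixd i
    · simp only [TwData.emb, TwData.unf, lift_apply_of, hi, if_true, map_mul, map_inv,
        FreeGroup.map.of, TwData.idx]
      rw [← map_inv, ← SemidirectProduct.inl_aut]
      congr 1
    · obtain ⟨hj, hk, h⟩ := D.hmov i hi
      simp only [TwData.emb, TwData.unf, lift_apply_of, hi, hj, hk, if_true, if_false, map_mul,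
        map_inv, FreeGroup.map.of, TwData.idx]
      group
  exact DFunLike.congr_fun key w

theorem TwData.emb_injective : Function.Injective D.emb := by
  intro w w' h
  have h1 := congrArg D.unf h
  rw [D.unf_emb, D.unf_emb] at h1
  exact FreeGroup.map_injective D.idx_injective (SemidirectProduct.inl_injective h1)

end Embed

/-- Theorem B. -/
theorem linear_of_twisted {K : Type*} [Field K] [CharZero K] (hK : ∃ t : K, Transcendental ℚ t)
    {X : Type*} [Finite X] (ψ : Multiplicative ℤ →* MulAut (FreeGroup X))
    (hψ : Twisted (ψ (Multiplicative.ofAdd 1))) :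
    LinearOver K (FreeGroup X ⋊[ψ] Multiplicative ℤ) := by
  obtain ⟨D⟩ := exists_twData hψ
  let Ψ : Multiplicative ℤ →* MulAut (FreeGroup (Option X)) := zpowersHom _ (tw D.P D.Q)
  have hΨ : Ψ (Multiplicative.ofAdd 1) = tw D.P D.Q := by simp [Ψ]
  have hlin : LinearOver K (FreeGroup (Option X) ⋊[Ψ] Multiplicative ℤ) := by
    apply linear_of_gersten hK D.P D.Q
    · rw [hΨ, tw_apply, twHom_none]
    · intro i
      rw [hΨ, tw_apply, twHom_some]
  have hcompat := compat_of_one ψ
    ((SemidirectProduct.inl : FreeGroup (Option X) →* FreeGroup (Option X) ⋊[Ψ] _).comp D.emb)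
    (SemidirectProduct.inr : Multiplicative ℤ →* FreeGroup (Option X) ⋊[Ψ] _) (by
      intro n
      simp only [MonoidHom.comp_apply]
      rw [D.emb_equivariant, ← map_inv, ← SemidirectProduct.inl_aut, hΨ])
  let F : FreeGroup X ⋊[ψ] Multiplicative ℤ →* FreeGroup (Option X) ⋊[Ψ] Multiplicative ℤ :=
    SemidirectProduct.lift
      ((SemidirectProduct.inl : FreeGroup (Option X) →* FreeGroup (Option X) ⋊[Ψ] _).comp D.emb)
      (SemidirectProduct.inr : Multiplicative ℤ →* FreeGroup (Option X) ⋊[Ψ] _) (by
      intro g
      ext1 x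
      exact hcompat g _)
  refine LinearOver.of_injective F ?_ hlin
  rw [injective_iff_map_eq_one]
  intro g hg
  obtain ⟨w, k, rfl⟩ : ∃ (w : FreeGroup X) (k : Multiplicative ℤ),
      SemidirectProduct.inl w * SemidirectProduct.inr k = g :=
    ⟨g.left, g.right, by simp⟩
  have h1 : SemidirectProduct.inl (D.emb w) * SemidirectProduct.inr k =
      (1 : FreeGroup (Option X) ⋊[Ψ] Multiplicative ℤ) := by
    rw [← hg]
    simp [F]
  have h2 := congrArg SemidirectProduct.right h1
  simp at h2
  subst h2
  have h3 := congrArg SemidirectProduct.left h1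
  simp at h3
  have h4 : w = 1 := D.emb_injective (by rw [h3, map_one])
  rw [h4]
  simp

/-- the automorphism `φ` has a positive power which, up to inner automorphisms and up to
conjugation in `Aut(F)`, is twisted -/
def VirtuallyTwisted {X : Type*} (φ : MulAut (FreeGroup X)) : Prop :=
  ∃ (m : ℕ) (g : FreeGroup X) (α : MulAut (FreeGroup X)), 0 < m ∧
    Twisted (α * (MulAut.conj g * φ ^ m) * α⁻¹)

theorem linear_of_virtuallyTwisted {K : Type*} [Field K] [CharZero K]
    (hK : ∃ t : K, Transcendental ℚ t)
    {X : Type*} [Finite X] (ψ : Multiplicative ℤ →* MulAut (FreeGroup X))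
    (hψ : VirtuallyTwisted (ψ (Multiplicative.ofAdd 1))) :
    LinearOver K (FreeGroup X ⋊[ψ] Multiplicative ℤ) := by
  obtain ⟨m, g, α, hm, htw⟩ := hψ
  let Ψ : Multiplicative ℤ →* MulAut (FreeGroup X) :=
    zpowersHom _ (α * (MulAut.conj g * (ψ (Multiplicative.ofAdd 1)) ^ m) * α⁻¹)
  have hΨ : Ψ (Multiplicative.ofAdd 1) =
      α * (MulAut.conj g * (ψ (Multiplicative.ofAdd 1)) ^ m) * α⁻¹ := by simp [Ψ]
  have hlin : LinearOver K (FreeGroup X ⋊[Ψ] Multiplicative ℤ) :=
    linear_of_twisted hK Ψ (by rw [hΨ]; exact htw)
  let T : FreeGroup X ⋊[ψ] Multiplicative ℤ :=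
    SemidirectProduct.inl g * SemidirectProduct.inr (Multiplicative.ofAdd (m : ℤ))
  have hpow : (Multiplicative.ofAdd (m : ℤ)) = (Multiplicative.ofAdd (1 : ℤ)) ^ m := by
    rw [← ofAdd_nsmul]; simp
  let f1 : FreeGroup X →* FreeGroup X ⋊[ψ] Multiplicative ℤ :=
    SemidirectProduct.inl.comp (α⁻¹ : MulAut (FreeGroup X)).toMonoidHom
  let f2 : Multiplicative ℤ →* FreeGroup X ⋊[ψ] Multiplicative ℤ := zpowersHom _ T
  have hf2 : f2 (Multiplicative.ofAdd 1) = T := by simp [f2]
  have hcompat := compat_of_one Ψ f1 f2 (by
    intro n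
    rw [hf2, hΨ]
    simp only [f1, T, MonoidHom.comp_apply, MulEquiv.coe_toMonoidHom, MulAut.mul_apply,
      MulAut.conj_apply]
    rw [MulAut.inv_apply_self, ← map_pow, ← hpow, map_mul, map_mul, map_inv, mul_inv_rev,
      SemidirectProduct.inl_aut]
    simp only [map_inv]
    group)
  let F : FreeGroup X ⋊[Ψ] Multiplicative ℤ →* FreeGroup X ⋊[ψ] Multiplicative ℤ :=
    SemidirectProduct.lift f1 f2 (by
      intro g
      ext1 x
      exact hcompat g _)
  have hright : ∀ k : ℤ, (f2 (Multiplicative.ofAdd k)).right = Multiplicative.ofAdd (m * k) := by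
    intro k
    have h1 : SemidirectProduct.rightHom (f2 (Multiplicative.ofAdd k)) =
        Multiplicative.ofAdd (m * k) := by
      simp only [f2, zpowersHom_apply, toAdd_ofAdd, map_zpow]
      simp only [T, map_mul, SemidirectProduct.rightHom_inl, SemidirectProduct.rightHom_inr,
        one_mul]
      rw [← ofAdd_zsmul]
      congr 1
      simp [mul_comm]
    exact h1
  have hinj : Function.Injective F := by
    rw [injective_iff_map_eq_one]
    intro g hg
    obtain ⟨w, k, rfl⟩ : ∃ (w : FreeGroup X) (k : ℤ),
        SemidirectProduct.inl w * SemidirectProduct.inr (Multiplicative.ofAdd k) = g :=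
      ⟨g.left, g.right.toAdd, by simp⟩
    have h1 : f1 w * f2 (Multiplicative.ofAdd k) = 1 := by
      rw [← hg]
      simp [F]
    have h2 := congrArg SemidirectProduct.right h1
    rw [SemidirectProduct.mul_right, hright] at h2
    simp only [f1, MonoidHom.comp_apply, SemidirectProduct.right_inl, one_mul,
      SemidirectProduct.one_right] at h2
    have h3 : (m : ℤ) * k = 0 := h2
    have hk : k = 0 := by
      rcases mul_eq_zero.1 h3 with h | h
      · omega
      · exact h
    subst hk
    rw [ofAdd_zero, map_one, mul_one] at h1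
    have hw : w = 1 := by
      have h4 : (α⁻¹ : MulAut (FreeGroup X)) w = 1 := by
        apply SemidirectProduct.inl_injective (φ := ψ)
        rw [map_one]
        exact h1
      exact (MulEquiv.map_eq_one_iff _).1 h4
    rw [hw]
    simp
  -- the range has finite index
  have hfin : F.range.FiniteIndex := by
    have h1 : (Subgroup.zpowers (Multiplicative.ofAdd (m : ℤ))).FiniteIndex := by
      constructor
      intro h0
      have h2 : (Subgroup.zpowers (Multiplicative.ofAdd (m : ℤ))).index = m := by
        have h3 : Subgroup.zpowers (Multiplicative.ofAdd (m : ℤ)) =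
          AddSubgroup.toSubgroup (AddSubgroup.zmultiples (m : ℤ)) := rfl
        rw [h3, AddSubgroup.index_toSubgroup, Int.index_zmultiples]
        simp
      omega
    have h2 : ((Subgroup.zpowers (Multiplicative.ofAdd (m : ℤ))).comap
        (SemidirectProduct.rightHom : FreeGroup X ⋊[ψ] Multiplicative ℤ →* _)).FiniteIndex := by
      constructor
      rw [Subgroup.index_comap_of_surjective _ SemidirectProduct.rightHom_surjective]
      exact h1.index_ne_zero
    refine Subgroup.finiteIndex_of_le (H := (Subgroup.zpowers (Multiplicative.ofAdd (m : ℤ))).comap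
        (SemidirectProduct.rightHom : FreeGroup X ⋊[ψ] Multiplicative ℤ →* _)) ?_
    intro x hx
    rw [Subgroup.mem_comap, Subgroup.mem_zpowers_iff] at hx
    obtain ⟨k, hk⟩ := hx
    refine ⟨SemidirectProduct.inl (α (x.left * ((f2 (Multiplicative.ofAdd k)).left)⁻¹)) *
      SemidirectProduct.inr (Multiplicative.ofAdd k), ?_⟩
    have hk' : x.right = Multiplicative.ofAdd ((m : ℤ) * k) := by
      have h3 : x.right = (Multiplicative.ofAdd (m : ℤ)) ^ k := hk.symm
      rw [h3, ← ofAdd_zsmul]
      congr 1
      simp [mul_comm]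
    have h4 : f1 (α (x.left * ((f2 (Multiplicative.ofAdd k)).left)⁻¹)) =
        SemidirectProduct.inl (x.left * ((f2 (Multiplicative.ofAdd k)).left)⁻¹) := by
      simp only [f1, MonoidHom.comp_apply, MulEquiv.coe_toMonoidHom]
      rw [MulAut.inv_apply_self]
    have h5 : F (SemidirectProduct.inl (α (x.left * ((f2 (Multiplicative.ofAdd k)).left)⁻¹)) *
      SemidirectProduct.inr (Multiplicative.ofAdd k)) =
        SemidirectProduct.inl (x.left * ((f2 (Multiplicative.ofAdd k)).left)⁻¹) *
          f2 (Multiplicative.ofAdd k) := by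
      rw [map_mul]
      simp only [F, SemidirectProduct.lift_inl, SemidirectProduct.lift_inr]
      rw [h4]
    rw [h5]
    apply SemidirectProduct.ext
    · simp
    · rw [SemidirectProduct.mul_right, SemidirectProduct.right_inl, one_mul, hright, hk']
  exact LinearOver.of_finiteIndex F.range
    (LinearOver.of_injective (MonoidHom.ofInjective hinj).symm.toMonoidHom
      (MulEquiv.injective _) hlin)

end Run7.h33.Gersten
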